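import Pool.Agent.T9h20.TG.Spec2

/-!
# Piece (SZ): the sizes in a block
-/

set_option autoImplicit false

open Set

namespace Pool.Agent.T9h41.TG

open Pool.Agent.T9h20.TA (mon mx)
open Pool.Agent.T9h20.TE (DD DD_conn mx_eq ne_of_mem)
open Pool.Agent.T9h81.TE (abs_mon)
open Pool.Agent.T9h20.TF
open Pool.Agent.T9h20.TG

theorem size_core {k : ℕ} (β : Fin k → ℝ) (e : Fin k → ℕ) (hβ : ∀ i, 0 ≤ β i) (p r : ℝ)
    (hpr : p ≤ r) (hex : ∃ i, 0 < β i) :
    ∃ B : Finset ℝ, B.card ≤ k ^ 2 + 2 ∧ p ∈ B ∧ r ∈ B ∧ (∀ x ∈ B, p ≤ x ∧ x ≤ r) ∧
      ∀ G y y' : ℝ, 0 < G → y ∈ Icc p r → y' ∈ Icc p r →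
        (∀ x' ∈ B, G ≤ |y - x'| ∧ G ≤ |y' - x'|) →
        (∀ x' ∈ B, ¬ (y < x' ∧ x' < y') ∧ ¬ (y' < x' ∧ x' < y)) →
        ∃ i0 : Fin k, ∀ i, ∀ x ∈ ({y, y'} : Set ℝ),
          β i * Real.exp (e i * x) ≤ β i0 * Real.exp (e i0 * x) ∧
          (e i ≠ e i0 → β i * Real.exp (e i * x) ≤
            Real.exp (-G) * (β i0 * Real.exp (e i0 * x))) := by
  classical
  set cross : Fin k × Fin k → ℝ := fun q =>
    (Real.log (β q.2) - Real.log (β q.1)) / ((e q.1 : ℝ) - e q.2) with hcross
  set Z : Finset ℝ := ((Finset.univ : Finset (Fin k × Fin k)).image cross).filter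
    (fun z => z ∈ Ioo p r) with hZ
  refine ⟨insert p (insert r Z), ?_, Finset.mem_insert_self _ _,
    Finset.mem_insert_of_mem (Finset.mem_insert_self _ _), ?_, ?_⟩
  · have h1 : Z.card ≤ k ^ 2 := by
      refine (Finset.card_filter_le _ _).trans (Finset.card_image_le.trans ?_)
      rw [Finset.card_univ, Fintype.card_prod, Fintype.card_fin, sq]
    have h2 := Finset.card_insert_le p (insert r Z)
    have h3 := Finset.card_insert_le r Z
    omega
  · intro x hx
    rw [Finset.mem_insert, Finset.mem_insert] at hx
    rcases hx with rfl | rfl | hx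
    · exact ⟨le_rfl, hpr⟩
    · exact ⟨hpr, le_rfl⟩
    · have := (Finset.mem_filter.mp hx).2
      exact ⟨this.1.le, this.2.le⟩
  · intro G y y' hG hy hy' hfar hsep
    have hpB : p ∈ insert p (insert r Z) := Finset.mem_insert_self _ _
    have hrB : r ∈ insert p (insert r Z) := Finset.mem_insert_of_mem (Finset.mem_insert_self _ _)
    obtain ⟨i1, hi1⟩ := hex
    obtain ⟨i0, -, hi0⟩ := Finset.exists_max_image (Finset.univ : Finset (Fin k))
      (fun i => β i * Real.exp (e i * y)) ⟨i1, Finset.mem_univ _⟩
    have hpos0 : 0 < β i0 := by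
      have h1 := hi0 i1 (Finset.mem_univ _)
      have h2 : 0 < β i1 * Real.exp (e i1 * y) := mul_pos hi1 (Real.exp_pos _)
      have h3 : 0 < β i0 * Real.exp (e i0 * y) := lt_of_lt_of_le h2 h1
      exact (pos_iff_pos_of_mul_pos h3).mpr (Real.exp_pos _)
    have a1 := hfar p hpB
    have a2 := hfar r hrB
    rw [abs_of_nonneg (by linarith [hy.1] : 0 ≤ y - p),
      abs_of_nonneg (by linarith [hy'.1] : 0 ≤ y' - p)] at a1
    rw [abs_of_nonpos (by linarith [hy.2] : y - r ≤ 0),
      abs_of_nonpos (by linarith [hy'.2] : y' - r ≤ 0)] at a2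
    refine ⟨i0, fun i x hx => ?_⟩
    have hxx : x = y ∨ x = y' := hx
    rcases (hβ i).eq_or_lt with h0 | hpos
    · rw [← h0, zero_mul]
      have := (mul_pos hpos0 (Real.exp_pos ((e i0 : ℝ) * x))).le
      exact ⟨this, fun _ => mul_nonneg (Real.exp_pos _).le this⟩
    · have hlog : ∀ (j : Fin k) (w : ℝ), 0 < β j →
          β j * Real.exp (e j * w) = Real.exp (Real.log (β j) + e j * w) := by
        intro j w hj
        rw [Real.exp_add, Real.exp_log hj]
      have hmax := hi0 i (Finset.mem_univ _)
      rw [hlog i y hpos, hlog i0 y hpos0, Real.exp_le_exp] at hmax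
      rw [hlog i x hpos, hlog i0 x hpos0, ← Real.exp_add, Real.exp_le_exp, Real.exp_le_exp]
      rcases eq_or_ne (e i) (e i0) with he | he
      · refine ⟨?_, fun h => absurd he h⟩
        rw [he] at hmax ⊢
        linarith
      · have key : Real.log (β i) + e i * x + G ≤ Real.log (β i0) + e i0 * x := by
          set D : ℝ := (e i0 : ℝ) - e i with hD
          have hD1 : 1 ≤ |D| := by
            have h1 : (1 : ℤ) ≤ |(e i0 : ℤ) - (e i : ℤ)| := by
              apply Int.one_le_abs
              intro h
              apply he
              omega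
            have h2 : ((1 : ℤ) : ℝ) ≤ ((|(e i0 : ℤ) - (e i : ℤ)| : ℤ) : ℝ) := by exact_mod_cast h1
            rw [Int.cast_abs] at h2
            push_cast at h2
            exact h2
          have hDne : D ≠ 0 := by
            intro h
            rw [h, abs_zero] at hD1
            linarith
          set z : ℝ := cross (i0, i) with hz
          have hz1 : D * z = Real.log (β i) - Real.log (β i0) := by
            rw [hz, hcross]
            simp only
            rw [← hD]
            field_simp
          -- `z` is far from `y`, `y'`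
          have hfz : G ≤ |y - z| ∧ G ≤ |y' - z| ∧ ¬ (y < z ∧ z < y') ∧ ¬ (y' < z ∧ z < y) := by
            rcases le_or_gt z p with h1 | h1
            · rw [abs_of_nonneg (by linarith [hy.1] : 0 ≤ y - z),
                abs_of_nonneg (by linarith [hy'.1] : 0 ≤ y' - z)]
              refine ⟨by linarith [a1.1], by linarith [a1.2], ?_, ?_⟩
              · rintro ⟨h2, -⟩; linarith [hy.1]
              · rintro ⟨h2, -⟩; linarith [hy'.1]
            · rcases le_or_gt r z with h2 | h2
              · rw [abs_of_nonpos (by linarith [hy.2] : y - z ≤ 0),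
                  abs_of_nonpos (by linarith [hy'.2] : y' - z ≤ 0)]
                refine ⟨by linarith [a2.1], by linarith [a2.2], ?_, ?_⟩
                · rintro ⟨-, h3⟩; linarith [hy'.2]
                · rintro ⟨-, h3⟩; linarith [hy.2]
              · have hzB : z ∈ insert p (insert r Z) := by
                  rw [Finset.mem_insert, Finset.mem_insert]
                  right; right
                  rw [hZ, Finset.mem_filter]
                  exact ⟨Finset.mem_image.mpr ⟨(i0, i), Finset.mem_univ _, rfl⟩, h1, h2⟩
                exact ⟨(hfar z hzB).1, (hfar z hzB).2, (hsep z hzB).1, (hsep z hzB).2⟩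
          obtain ⟨f1, f2, f3, f4⟩ := hfz
          have hy0 : 0 ≤ D * (y - z) := by
            rw [mul_sub, hz1, hD]
            linarith
          -- `x - z` has the same sign as `y - z`
          have hxz : G ≤ D * (x - z) := by
            have hGx : G ≤ |x - z| := by
              rcases hxx with rfl | rfl
              · exact f1
              · exact f2
            have hsg : 0 ≤ D * (x - z) := by
              rcases hxx with rfl | rfl
              · exact hy0
              · rcases lt_or_gt_of_ne hDne with hneg | hposD
                · have h1 : y - z ≤ 0 := by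
                    by_contra hcon
                    push Not at hcon
                    have := mul_neg_of_neg_of_pos hneg hcon
                    linarith
                  have h2 : y < z := by
                    rw [abs_of_nonpos h1] at f1
                    linarith
                  have h3 : x ≤ z := by
                    by_contra hcon
                    push Not at hcon
                    exact f3 ⟨h2, hcon⟩
                  exact mul_nonneg_of_nonpos_of_nonpos hneg.le (by linarith)
                · have h1 : 0 ≤ y - z := by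
                    by_contra hcon
                    push Not at hcon
                    have := mul_neg_of_pos_of_neg hposD hcon
                    linarith
                  have h2 : z < y := by
                    rw [abs_of_nonneg h1] at f1
                    linarith
                  have h3 : z ≤ x := by
                    by_contra hcon
                    push Not at hcon
                    exact f4 ⟨hcon, h2⟩
                  exact mul_nonneg hposD.le (by linarith)
            rw [← abs_of_nonneg hsg, abs_mul]
            have := abs_nonneg (x - z)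
            nlinarith
          rw [mul_sub, hz1, hD] at hxz
          linarith
        constructor
        · linarith
        · intro _
          linarith

theorem sSize : SSize := by
  intro k q t _ b d al c a s0 p r hpr hc hb hDD
  classical
  set β : Fin k → ℝ := fun i => |b i| * ∏ j, |c j (s0 j)| ^ al i j with hβ
  set e : Fin k → ℕ := fun i => d i + ∑ j, al i j * a j (s0 j) with he
  have hβ0 : ∀ i, 0 ≤ β i := fun i =>
    mul_nonneg (abs_nonneg _) (Finset.prod_nonneg fun j _ => pow_nonneg (abs_nonneg _) _)
  have hcne : ∀ j, c j (s0 j) ≠ 0 := fun j => ne_of_mem (hc j) (hDD j).1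
  have hex : ∃ i, 0 < β i := by
    obtain ⟨i, hi⟩ := hb
    exact ⟨i, mul_pos (abs_pos.mpr hi)
      (Finset.prod_pos fun j _ => pow_pos (abs_pos.mpr (hcne j)) _)⟩
  have hMM : ∀ i, ∀ x ∈ Icc p r, MM b (fun i => (d i : ℝ)) al c (fun j s => (a j s : ℝ)) i x =
      β i * Real.exp (e i * x) := by
    intro i x hx
    have h1 : ∀ j, mx (c j) (fun s => (a j s : ℝ)) x =
        |c j (s0 j)| * Real.exp ((a j (s0 j) : ℝ) * x) := by
      intro j
      rw [mx_eq (DD_conn (hc j) (hDD j).1 (hDD j).2 hx.1 hx.2), abs_mon]
    unfold MM
    rw [Finset.prod_congr rfl fun j _ => by rw [h1 j, mul_pow, ← Real.exp_nat_mul],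
      Finset.prod_mul_distrib, ← Real.exp_sum]
    have h2 : (e i : ℝ) * x = (d i : ℝ) * x + ∑ j, (al i j : ℝ) * ((a j (s0 j) : ℝ) * x) := by
      rw [he]
      push_cast
      rw [add_mul, Finset.sum_mul]
      congr 1
      exact Finset.sum_congr rfl fun j _ => by ring
    rw [h2, Real.exp_add, hβ]
    simp only
    ring
  constructor
  · intro y hy y' hy' i
    rw [hMM i y' hy', hMM i y hy]
    change β i * Real.exp ((e i : ℝ) * y') =
      β i * Real.exp ((e i : ℝ) * y) * Real.exp ((e i : ℝ) * (y' - y))
    have h6 : Real.exp ((e i : ℝ) * y') =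
        Real.exp ((e i : ℝ) * y) * Real.exp ((e i : ℝ) * (y' - y)) := by
      rw [← Real.exp_add]
      congr 1
      ring
    rw [h6]
    exact (mul_assoc _ _ _).symm
  · obtain ⟨B, h1, h2, h3, h4, h5⟩ := size_core β e hβ0 p r hpr.le hex
    refine ⟨B, h1, h2, h3, h4, fun G y y' hG hy hy' hfar hsep => ?_⟩
    obtain ⟨i0, hi0⟩ := h5 G y y' hG hy hy' hfar hsep
    refine ⟨i0, fun i x hx => ?_⟩
    have hxI : x ∈ Icc p r := by
      have hxx : x = y ∨ x = y' := hx
      rcases hxx with rfl | rfl
      · exact hy
      · exact hy'
    rw [hMM i x hxI, hMM i0 x hxI]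
    exact hi0 i x hx

end Pool.Agent.T9h41.TG
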